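import Pool.Agent.H98.PolarSing

/-!
A partition of `κ` into countably many sets of small order type, read off from a surjection of
`ν` onto `κ` (Milner-Rado paradox).
-/

open Cardinal Ordinal Set

namespace Pool.Agent.H98.Polar

namespace MR

variable {K W : Type} [LinearOrder K] [LinearOrder W]

/-- `i` is the first index of an element of `[ξ, b)`, and `v` is this element -/
def FA (f : W → K → Prop) (b : WithTop K) (ξ : K) (i : W) (v : K) : Prop :=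
  f i v ∧ ξ ≤ v ∧ (v : WithTop K) < b ∧
    ∀ j < i, ∀ v', f j v' → ξ ≤ v' → ¬ (v' : WithTop K) < b

/-- at most `n` further steps lead from `b` down to `ξ` -/
def Le (f : W → K → Prop) : ℕ → WithTop K → K → Prop
  | 0, b, ξ => ∃ i, FA f b ξ i ξ
  | n + 1, b, ξ => ∃ i v, FA f b ξ i v ∧ (v = ξ ∨ Le f n (v : WithTop K) ξ)

variable {f g : W → K → Prop}

theorem FA.index {b : WithTop K} {ξ : K} {i i' : W} {v v' : K} (h : FA f b ξ i v)
    (h' : FA f b ξ i' v') : i = i' := by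
  rcases lt_trichotomy i i' with hlt | heq | hlt
  · exact absurd h.2.2.1 (h'.2.2.2 i hlt v h.1 h.2.1)
  · exact heq
  · exact absurd h'.2.2.1 (h.2.2.2 i' hlt v' h'.1 h'.2.1)

theorem Le.succ : ∀ (n : ℕ) {b : WithTop K} {ξ : K}, Le f n b ξ → Le f (n + 1) b ξ
  | 0, _, ξ, ⟨i, hi⟩ => ⟨i, ξ, hi, Or.inl rfl⟩
  | n + 1, _, _, ⟨i, v, hi, h⟩ => ⟨i, v, hi, h.imp id (fun h => Le.succ n h)⟩

theorem Le.mono {m n : ℕ} (hmn : m ≤ n) {b : WithTop K} {ξ : K} (h : Le f m b ξ) :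
    Le f n b ξ := by
  induction hmn with
  | refl => exact h
  | step _ ih => exact Le.succ _ ih

theorem FA.local {i₀ : W} {ξ : K} (hfg : ∀ j ≤ i₀, ∀ v, f j v ↔ g j v) (h0 : f i₀ ξ)
    {b : WithTop K} {i : W} {v : K} (h : FA f b ξ i v) : FA g b ξ i v := by
  have hi : i ≤ i₀ := by
    by_contra hcon
    refine h.2.2.2 i₀ (not_le.1 hcon) ξ h0 le_rfl (lt_of_le_of_lt ?_ h.2.2.1)
    exact WithTop.coe_le_coe.2 h.2.1
  exact ⟨(hfg i hi v).1 h.1, h.2.1, h.2.2.1, fun j hj v' hv' =>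
    h.2.2.2 j hj v' ((hfg j (hj.le.trans hi) v').2 hv')⟩

theorem Le.local {i₀ : W} {ξ : K} (hfg : ∀ j ≤ i₀, ∀ v, f j v ↔ g j v) (h0 : f i₀ ξ) :
    ∀ (n : ℕ) {b : WithTop K}, Le f n b ξ → Le g n b ξ
  | 0, _, ⟨i, hi⟩ => ⟨i, hi.local hfg h0⟩
  | n + 1, _, ⟨i, v, hi, h⟩ => ⟨i, v, hi.local hfg h0, h.imp id (fun h => Le.local hfg h0 n h)⟩

theorem exists_FA [WellFoundedLT W] {b : WithTop K} {ξ : K} {i₁ : W} {v₁ : K} (h1 : f i₁ v₁)
    (h2 : ξ ≤ v₁) (h3 : (v₁ : WithTop K) < b) : ∃ i v, FA f b ξ i v ∧ i ≤ i₁ := by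
  have hwf : WellFounded (fun x y : W => x < y) := wellFounded_lt
  have hne : {i : W | ∃ v, f i v ∧ ξ ≤ v ∧ (v : WithTop K) < b}.Nonempty := ⟨i₁, v₁, h1, h2, h3⟩
  obtain ⟨v, hv1, hv2, hv3⟩ := hwf.min_mem _ hne
  refine ⟨hwf.min _ hne, v, ⟨hv1, hv2, hv3, fun j hj v' hv' h4 h5 => ?_⟩, ?_⟩
  · exact hwf.not_lt_min _ (show j ∈ {i : W | ∃ v, f i v ∧ ξ ≤ v ∧ (v : WithTop K) < b} from
      ⟨v', hv', h4, h5⟩) hj
  · by_contra hcon
    exact hwf.not_lt_min _ (show i₁ ∈ {i : W | ∃ v, f i v ∧ ξ ≤ v ∧ (v : WithTop K) < b} from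
      ⟨v₁, h1, h2, h3⟩) (not_le.1 hcon)

theorem exists_Le [WellFoundedLT K] [WellFoundedLT W] {i₀ : W} {ξ : K} (h0 : f i₀ ξ)
    (b : WithTop K) (hb : (ξ : WithTop K) < b) : ∃ n, Le f n b ξ := by
  induction b using WellFoundedLT.induction with
  | ind b ih =>
    obtain ⟨i, v, hv, -⟩ := exists_FA h0 le_rfl hb
    rcases eq_or_lt_of_le hv.2.1 with heq | hlt
    · subst heq
      exact ⟨0, i, hv⟩
    · obtain ⟨n, hn⟩ := ih v hv.2.2.1 (WithTop.coe_lt_coe.2 hlt)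
      exact ⟨n + 1, i, v, hv, Or.inr hn⟩

end MR

/-- a decreasing sequence of conditions which decide given things -/
theorem exists_seq {W P Y : Type} [Preorder P] [LinearOrder W] [WellFoundedLT W] [Nonempty Y]
    (p₀ : P)
    (hcl : ∀ (j : W) (h : W → P), (∀ i < j, h i ≤ p₀) → (∀ i < j, ∀ i' < i, h i ≤ h i') →
      ∃ q ≤ p₀, ∀ i < j, q ≤ h i)
    (R : W → P → Y → Prop) (hR : ∀ j, ∀ q ≤ p₀, ∃ q' ≤ q, ∃ y, R j q' y) :
    ∃ (q : W → P) (y : W → Y), (∀ j, q j ≤ p₀) ∧ (∀ j, ∀ i < j, q j ≤ q i) ∧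
      ∀ j, R j (q j) (y j) := by
  classical
  let S : ∀ j : W, (∀ i, i < j → P × Y) → P × Y → Prop := fun j h x =>
    x.1 ≤ p₀ ∧ (∀ i (hi : i < j), x.1 ≤ (h i hi).1) ∧ R j x.1 x.2
  let F : ∀ j : W, (∀ i, i < j → P × Y) → P × Y := fun j h =>
    if hx : ∃ x, S j h x then hx.choose else (p₀, Classical.arbitrary Y)
  let x : W → P × Y := WellFoundedLT.fix (motive := fun _ => P × Y) F
  have hx : ∀ j, x j = F j (fun i _ => x i) := fun j =>
    WellFoundedLT.fix_eq (motive := fun _ => P × Y) F j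
  have key : ∀ j, S j (fun i _ => x i) (x j) := by
    intro j
    induction j using WellFoundedLT.induction with
    | ind j ih =>
      have hex : ∃ y, S j (fun i _ => x i) y := by
        obtain ⟨q, hq, hqi⟩ := hcl j (fun i => (x i).1) (fun i hi => (ih i hi).1)
          (fun i hi i' hi' => (ih i hi).2.1 i' hi')
        obtain ⟨q', hq', y, hy⟩ := hR j q hq
        exact ⟨(q', y), hq'.trans hq, fun i hi => hq'.trans (hqi i hi), hy⟩
      rw [hx j]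
      simp only [F]
      rw [dif_pos hex]
      exact hex.choose_spec
  exact ⟨fun j => (x j).1, fun j => (x j).2, fun j => (key j).1, fun j i hi => (key j).2.1 i hi,
    fun j => (key j).2.2⟩

end Pool.Agent.H98.Polar
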