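import Pool.Agent.H98.SG.Main

/-!
Singular `κ`: the unbalanced relation fails in the Levy extension for all `α ≥ 1`.
-/

open Cardinal Ordinal Set

namespace Pool.Agent.H98.Polar

open MR

variable {κ ν μ : Cardinal.{0}} {s : ν.ord.ToType → κ.ord.ToType}
  {inj : κ.ord.ToType → μ.ord.ToType}

theorem RR_func (hinj : Function.Injective inj) {p : Levy κ μ} {i : ν.ord.ToType}
    {v v' : κ.ord.ToType} (h : RR s inj p i v) (h' : RR s inj p i v') : v = v' := by
  unfold RR at h h'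
  rw [h] at h'
  exact hinj (Option.some.inj h')

theorem mr_claim (hcof : κ.ord.cof = ν) (hν : ℵ₀ ≤ ν) (hκ : ν < κ) (hμ : μ ≠ 0)
    (hinj : Function.Injective inj)
    (hs : ∀ γ, ∃ i, γ ≤ s i) {G : SetName (Levy κ μ) (κ.ord.ToType × κ.ord.ToType)}
    {r : Levy κ μ} (hG : fIncreasing G r) (pt : Ordinal.{0} → κ.ord.ToType)
    (hpt : ∀ o o', o < o' → o' < κ.ord → pt o < pt o') :
    ∀ (m : ℕ) {q : Levy κ μ} (_ : q ≤ r)
      (b : WithTop κ.ord.ToType) (a : Ordinal.{0}) (_ : a + ν.ord ^ (m + 1) < κ.ord)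
      (_ : ∀ q' ≤ q, ∀ y ≤ ν.ord ^ (m + 1), ∀ γ, fMem (pt (a + y), γ) G q' →
        ∀ i, Tot s i q' → RR s inj q' i γ → (γ : WithTop κ.ord.ToType) < b ∧
          Le (RR s inj q') m b γ), False := by
  intro m
  induction m with
  | zero =>
    intro q hq b a ha hQ
    obtain ⟨q₁, hq₁, z, hz, k, v, H⟩ := mr_step (inj := inj) hcof hν hκ hμ hinj hs hG pt hpt 0
      hq b a ha (fun q' hq' y hy γ hγ i hi hv => (hQ q' hq' y hy γ hγ i hi hv).1)
    obtain ⟨q₂, hq₂, γ, hγ, i, hi, hv⟩ := exists_decG (inj := inj) hcof hν hκ hμ hs hG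
      (pt (a + z + 0)) (hq₁.trans hq)
    obtain ⟨h1, h2⟩ := H q₂ hq₂ 0 bot_le γ hγ
    rw [add_zero] at hγ
    obtain ⟨i', hi'⟩ := (hQ q₂ (hq₂.trans hq₁) z (le_self_add.trans hz) γ hγ i hi hv).2
    have h3 := h2.index hi'
    subst h3
    exact absurd (RR_func hinj h2.1 hi'.1) h1.ne'
  | succ m ih =>
    intro q hq b a ha hQ
    obtain ⟨q₁, hq₁, z, hz, k, v, H⟩ := mr_step (inj := inj) hcof hν hκ hμ hinj hs hG pt hpt
      (m + 1) hq b a ha (fun q' hq' y hy γ hγ i hi hv => (hQ q' hq' y hy γ hγ i hi hv).1)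
    refine ih (hq₁.trans hq) v (a + z) ?_ ?_
    · refine lt_of_le_of_lt ?_ ha
      rw [add_assoc]
      gcongr
    · intro q' hq' y hy γ hγ i hi hv
      obtain ⟨h1, h2⟩ := H q' hq' y hy γ hγ
      refine ⟨WithTop.coe_lt_coe.2 h1, ?_⟩
      rw [add_assoc] at hγ
      have hzy : z + y ≤ ν.ord ^ (m + 1 + 1) := le_trans (by gcongr) hz
      obtain ⟨i', v', hi', h3⟩ := (hQ q' (hq'.trans hq₁) (z + y) hzy γ hγ i hi hv).2
      have h4 := h2.index hi'
      subst h4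
      have h5 := RR_func hinj h2.1 hi'.1
      subst h5
      rcases h3 with h3 | h3
      · exact absurd h3 h1.ne'
      · exact h3

/-- For singular `κ` every condition of `Levy κ μ`, `μ ≥ κ`, forces the failure of
`(κ, ω) → (κ α; ω ω)` for every `α ≥ 1`. -/
theorem fails_singular (hcof : κ.ord.cof = ν) (hν : ℵ₀ ≤ ν) (hκ : ν < κ) (hμ : κ ≤ μ)
    {α : Ordinal.{0}} (hα : 1 ≤ α) (p : Levy κ μ) : fNot (fUnbalanced κ α) p := by
  classical
  have hμ0 : μ ≠ 0 := (((aleph0_pos.trans_le hν).trans hκ).trans_le hμ).ne'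
  obtain ⟨s, hs⟩ := exists_cofinal_seq hcof
  obtain ⟨inj, hinj⟩ : ∃ f : κ.ord.ToType → μ.ord.ToType, Function.Injective f := by
    have h1 : #κ.ord.ToType ≤ #μ.ord.ToType := by
      rw [mk_toType, mk_toType, card_ord, card_ord]
      exact hμ
    obtain ⟨f⟩ := (le_def _ _).1 h1
    exact ⟨f, f.injective⟩
  have hκ0 : 0 < κ.ord := by
    rw [lt_ord]
    simpa using (aleph0_pos.trans_le hν).trans hκ
  let pt : Ordinal.{0} → κ.ord.ToType := fun o =>
    if h : o < κ.ord then Ordinal.ToType.mk ⟨o, h⟩ else Ordinal.ToType.mk ⟨0, hκ0⟩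
  have hpt : ∀ o o', o < o' → o' < κ.ord → pt o < pt o' := by
    intro o o' h h'
    have h1 : pt o = Ordinal.ToType.mk ⟨o, h.trans h'⟩ := dif_pos (h.trans h')
    have h2 : pt o' = Ordinal.ToType.mk ⟨o', h'⟩ := dif_pos h'
    rw [h1, h2]
    exact Ordinal.ToType.mk.lt_iff_lt.2 h
  have hpow : ∀ n : ℕ, (ν.ord ^ n).card ≤ ν := by
    intro n
    induction n with
    | zero =>
      rw [pow_zero, card_one]
      exact one_le_aleph0.trans hν
    | succ n ih =>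
      rw [pow_succ, card_mul, card_ord]
      exact (mul_le_mul' ih le_rfl).trans (mul_eq_self hν).le
  let c : SetName (Levy κ μ) (κ.ord.ToType × ℕ) := mrName s inj
  have hno0 : ∀ r : Levy κ μ, ¬ fHom κ κ.ord false c r := by
    intro r hr
    obtain ⟨r1, hr1, G, hr1'⟩ := hr r le_rfl
    obtain ⟨r2, hr2, B, hG, hB, hhom⟩ := hr1' r1 le_rfl
    obtain ⟨r3, hr3, n, -, hn⟩ := hB 0 r2 le_rfl
    refine mr_claim (inj := inj) hcof hν hκ hμ0 hinj hs hG pt hpt n hr3 ⊤ 0 ?_ ?_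
    · rw [zero_add, lt_ord]
      exact (hpow _).trans_lt hκ
    · intro q' hq' y _ γ hγ i hi hv
      refine ⟨WithTop.coe_lt_top γ, ?_⟩
      by_contra hcon
      have h1 : fMem (γ, n) c q' := (mem_mrName hi hv).2 hcon
      have h2 := hhom _ γ n q' (hq'.trans hr3) hγ q' le_rfl (fMem_mono hq' hn)
      simp only [Bool.false_eq_true, if_false] at h2
      exact h2 q' le_rfl h1
  have hno1 : ∀ r : Levy κ μ, ¬ fHom κ α true c r := by
    intro r hr
    obtain ⟨r1, hr1, G, hr1'⟩ := hr r le_rfl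
    obtain ⟨r2, hr2, B, hG, hB, hhom⟩ := hr1' r1 le_rfl
    let x : α.ToType := Ordinal.ToType.mk ⟨0, lt_of_lt_of_le zero_lt_one hα⟩
    obtain ⟨q, hq, γ, hγ, i, hi, hv⟩ := exists_decG (inj := inj) hcof hν hκ hμ0 hs hG x le_rfl
    obtain ⟨m, hm⟩ := exists_Le hv ⊤ (WithTop.coe_lt_top γ)
    obtain ⟨r3, hr3, n, hmn, hn⟩ := hB m q hq
    have hmn' : m ≤ n := hmn
    have h2 := hhom x γ n r3 (hr3.trans hq) (fMem_mono hr3 hγ) r3 le_rfl hn
    simp only [if_true] at h2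
    have hi3 : Tot s i r3 := hi.mono hr3
    have hv3 : RR s inj r3 i γ := (RR_agree hr3 hi i le_rfl γ).1 hv
    refine (mem_mrName hi3 hv3).1 h2 ?_
    exact Le.local (RR_agree hr3 hi) hv n (hm.mono hmn')
  intro q hq hcon
  obtain ⟨r, hr, h | h⟩ := hcon c q le_rfl
  · exact hno0 r h
  · exact hno1 r h

end Pool.Agent.H98.Polar
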