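import Pool.Agent.H98.SG.Comb

/-!
Singular `κ`: in the Levy extension `κ` is a union of countably many sets of small order type.
-/

open Cardinal Ordinal Set

namespace Pool.Agent.H98.Polar

open MR

section

variable {κ ν μ : Cardinal.{0}}

/-- the generic partial function from `ν` to `κ` as far as `p` decides it -/
def RR (s : ν.ord.ToType → κ.ord.ToType) (inj : κ.ord.ToType → μ.ord.ToType) (p : Levy κ μ) :
    ν.ord.ToType → κ.ord.ToType → Prop :=
  fun j v => val s p.1 j = some (inj v)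

/-- the name of the bad colouring -/
def mrName (s : ν.ord.ToType → κ.ord.ToType) (inj : κ.ord.ToType → μ.ord.ToType) :
    SetName (Levy κ μ) (κ.ord.ToType × ℕ) :=
  fun x => {p | ∃ i, Tot s i p ∧ RR s inj p i x.1 ∧ ¬ Le (RR s inj p) x.2 ⊤ x.1}

variable {s : ν.ord.ToType → κ.ord.ToType} {inj : κ.ord.ToType → μ.ord.ToType}

theorem RR_agree {p q : Levy κ μ} {i : ν.ord.ToType} (h : q ≤ p) (hp : Tot s i p) :
    ∀ j ≤ i, ∀ v, RR s inj p j v ↔ RR s inj q j v := by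
  intro j hj v
  unfold RR
  rw [val_agree h hp hj]

theorem mem_mrName {p : Levy κ μ} {i : ν.ord.ToType} {ξ : κ.ord.ToType} (hp : Tot s i p)
    (hξ : RR s inj p i ξ) {n : ℕ} :
    fMem (ξ, n) (mrName s inj) p ↔ ¬ Le (RR s inj p) n ⊤ ξ := by
  constructor
  · intro h
    obtain ⟨r, hr, t, ⟨i', hi', ht, htn⟩, hrt⟩ := h p le_rfl
    dsimp only at hi' ht htn
    intro hle
    apply htn
    have h1 : Le (RR s inj r) n ⊤ ξ := Le.local (RR_agree hr hp) hξ n hle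
    exact Le.local (fun j hj v => (RR_agree hrt hi' j hj v).symm)
      ((RR_agree hrt hi' i' le_rfl ξ).1 ht) n h1
  · intro h q hq
    exact ⟨q, le_rfl, p, ⟨i, hp, hξ, h⟩, hq⟩

theorem exists_decG (hcof : κ.ord.cof = ν) (hν : ℵ₀ ≤ ν) (hκ : ν < κ) (hμ : μ ≠ 0)
    (hs : ∀ γ, ∃ i, γ ≤ s i) {I : Type} [LinearOrder I] {G : SetName (Levy κ μ) (I × κ.ord.ToType)}
    {r : Levy κ μ} (hG : fIncreasing G r) (x : I) {q : Levy κ μ} (hq : q ≤ r) :
    ∃ q' ≤ q, ∃ γ, fMem (x, γ) G q' ∧ ∃ i, Tot s i q' ∧ RR s inj q' i γ := by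
  obtain ⟨r1, hr1, γ, hγ⟩ := hG.1 x q hq
  obtain ⟨q', hq', i, hi, hv⟩ := exists_val hcof hν hκ hμ hs r1 (inj γ)
  exact ⟨q', hq'.trans hr1, γ, fMem_mono hq' hγ, i, hi, hv⟩

theorem mono_decG {I : Type} [LinearOrder I] {G : SetName (Levy κ μ) (I × κ.ord.ToType)}
    {r : Levy κ μ} (hG : fIncreasing G r) {x y : I} {γ δ : κ.ord.ToType} {q : Levy κ μ}
    (hq : q ≤ r) (hx : fMem (x, γ) G q) (hy : fMem (y, δ) G q) :
    (x < y → γ < δ) ∧ (x = y → γ = δ) :=
  hG.2 x y γ δ q hq hx q le_rfl hy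

/-- one step of the induction -/
theorem mr_step (hcof : κ.ord.cof = ν) (hν : ℵ₀ ≤ ν) (hκ : ν < κ) (hμ : μ ≠ 0)
    (hinj : Function.Injective inj)
    (hs : ∀ γ, ∃ i, γ ≤ s i) {G : SetName (Levy κ μ) (κ.ord.ToType × κ.ord.ToType)}
    {r : Levy κ μ} (hG : fIncreasing G r) (pt : Ordinal.{0} → κ.ord.ToType)
    (hpt : ∀ o o', o < o' → o' < κ.ord → pt o < pt o') (m : ℕ) {q : Levy κ μ} (hq : q ≤ r)
    (b : WithTop κ.ord.ToType) (a : Ordinal.{0}) (ha : a + ν.ord ^ (m + 1) < κ.ord)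
    (hQ : ∀ q' ≤ q, ∀ y ≤ ν.ord ^ (m + 1), ∀ γ, fMem (pt (a + y), γ) G q' →
      ∀ i, Tot s i q' → RR s inj q' i γ → (γ : WithTop κ.ord.ToType) < b) :
    ∃ q₁ ≤ q, ∃ z, z + ν.ord ^ m ≤ ν.ord ^ (m + 1) ∧ ∃ (k : ν.ord.ToType) (v : κ.ord.ToType),
      ∀ q' ≤ q₁, ∀ y ≤ ν.ord ^ m, ∀ γ, fMem (pt (a + z + y), γ) G q' →
        γ < v ∧ FA (RR s inj q') b γ k v := by
  classical
  -- the top
  obtain ⟨q₁, hq₁, γ₁, hγ₁, i₁, hi₁, hv₁⟩ := exists_decG (inj := inj) hcof hν hκ hμ hs hG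
    (pt (a + ν.ord ^ (m + 1))) hq
  have hb₁ : (γ₁ : WithTop κ.ord.ToType) < b := hQ q₁ hq₁ _ le_rfl γ₁ hγ₁ i₁ hi₁ hv₁
  let tp : ν.ord.ToType → Ordinal.{0} := fun j => (Ordinal.ToType.mk.symm j).1
  have htp : StrictMono tp := fun i j hij => Ordinal.ToType.mk.symm.lt_iff_lt.2 hij
  have htpν : ∀ j, tp j < ν.ord := fun j => (Ordinal.ToType.mk.symm j).2
  have hlim : ∀ j, 2 * tp j + 1 < ν.ord := by
    intro j
    rw [lt_ord]
    have h1 : (tp j).card < ν := lt_ord.1 (htpν j)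
    rw [card_add, card_mul, card_one]
    refine add_lt_of_lt hν (mul_lt_of_lt hν ?_ h1) (one_lt_aleph0.trans_le hν)
    have : (2 : Ordinal.{0}).card = 2 := by simp
    rw [this]
    exact (nat_lt_aleph0 2).trans_le hν
  have hzj : ∀ j, ν.ord ^ m * (2 * tp j) + ν.ord ^ m ≤ ν.ord ^ (m + 1) := by
    intro j
    have h1 : ν.ord ^ m * (2 * tp j) + ν.ord ^ m = ν.ord ^ m * (2 * tp j + 1) := by
      rw [mul_add, mul_one]
    rw [h1, pow_succ]
    gcongr
    exact (hlim j).le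
  have hν0 : 0 < ν.ord ^ m := by
    have : 0 < ν.ord := by
      rw [lt_ord]
      simpa using (aleph0_pos.trans_le hν)
    exact pow_pos this m
  have hxtop : ∀ j, a + ν.ord ^ m * (2 * tp j) < a + ν.ord ^ (m + 1) := by
    intro j
    refine (add_lt_add_iff_left a).2 (lt_of_lt_of_le ?_ (hzj j))
    exact lt_add_of_pos_right _ hν0
  have hneK : Nonempty κ.ord.ToType := ⟨γ₁⟩
  obtain ⟨qq, yy, hqq1, hqq2, hqq3⟩ := exists_seq (W := ν.ord.ToType) (Y := κ.ord.ToType) q₁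
    (by
      intro j h h1 h2
      obtain ⟨q2, hq2⟩ := levy_closed' hcof hν hκ.le μ (insert q₁ (h '' Iio j))
        ((mk_insert_le).trans_lt (add_lt_of_lt hν (mk_image_le.trans_lt
          (mk_Iio_toType_ord_lt j)) (one_lt_aleph0.trans_le hν))) (by
        rintro x (rfl | ⟨i, hi, rfl⟩) y (rfl | ⟨i', hi', rfl⟩) hxy
        · exact absurd rfl hxy
        · exact Or.inr (h1 i' hi')
        · exact Or.inl (h1 i hi)
        · rcases lt_trichotomy i i' with h' | h' | h'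
          · exact Or.inr (h2 i' hi' i h')
          · exact absurd (by rw [h']) hxy
          · exact Or.inl (h2 i hi i' h'))
      exact ⟨q2, hq2 _ (mem_insert _ _), fun i hi => hq2 _ (mem_insert_of_mem _ ⟨i, hi, rfl⟩)⟩)
    (fun j q' γ => fMem (pt (a + ν.ord ^ m * (2 * tp j)), γ) G q')
    (fun j q' hq' => by
      obtain ⟨q2, hq2, γ, hγ, -⟩ := exists_decG (inj := inj) hcof hν hκ hμ hs hG
        (pt (a + ν.ord ^ m * (2 * tp j))) (hq'.trans (hq₁.trans hq))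
      exact ⟨q2, hq2, γ, hγ⟩)
  have hr1 : q₁ ≤ r := hq₁.trans hq
  have hltop : ∀ j, yy j < γ₁ := fun j =>
    (mono_decG hG ((hqq1 j).trans hr1) (hqq3 j) (fMem_mono (hqq1 j) hγ₁)).1
      (hpt _ _ (hxtop j) ha)
  have hFA : ∀ j, ∃ k v, FA (RR s inj q₁) b (yy j) k v ∧ k ≤ i₁ := fun j =>
    exists_FA hv₁ (hltop j).le hb₁
  choose k v hkv hki using hFA
  -- pigeonhole
  obtain ⟨j, j', hjj', hk⟩ : ∃ j j' : ν.ord.ToType, j < j' ∧ k j = k j' := by
    by_contra hcon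
    push Not at hcon
    have hi : Function.Injective (fun j => (⟨k j, hki j⟩ : Iic i₁)) := by
      intro j j' h
      have h1 : k j = k j' := congrArg Subtype.val h
      rcases lt_trichotomy j j' with hlt | heq | hlt
      · exact absurd h1 (hcon j j' hlt)
      · exact heq
      · exact absurd h1.symm (hcon j' j hlt)
    have h1 := mk_le_of_injective hi
    rw [mk_toType, card_ord] at h1
    exact absurd (mk_Iic_lt hν i₁) (not_lt.2 h1)
  have hvv : v j = v j' := by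
    have h1 := (hkv j).1
    have h2 := (hkv j').1
    rw [← hk] at h2
    unfold RR at h1 h2
    rw [h1] at h2
    exact hinj (Option.some.inj h2)
  refine ⟨qq j', (hqq1 j').trans hq₁, ν.ord ^ m * (2 * tp j), hzj j, k j, v j, ?_⟩
  intro q' hq' y hy γ hγ
  have hq'r : q' ≤ r := hq'.trans ((hqq1 j').trans hr1)
  have hj1 : fMem (pt (a + ν.ord ^ m * (2 * tp j)), yy j) G q' :=
    fMem_mono (hq'.trans (hqq2 j' j hjj')) (hqq3 j)
  have hj2 : fMem (pt (a + ν.ord ^ m * (2 * tp j')), yy j') G q' := fMem_mono hq' (hqq3 j')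
  have hxx : a + ν.ord ^ m * (2 * tp j) + y < a + ν.ord ^ m * (2 * tp j') := by
    have h1 : 2 * tp j + 2 ≤ 2 * tp j' := by
      have h2 : tp j + 1 ≤ tp j' := by
        rw [← Order.succ_eq_add_one]
        exact Order.succ_le_of_lt (htp hjj')
      calc 2 * tp j + 2 = 2 * (tp j + 1) := by rw [mul_add, mul_one]
        _ ≤ 2 * tp j' := by gcongr
    rw [add_assoc]
    refine (add_lt_add_iff_left a).2 ?_
    calc ν.ord ^ m * (2 * tp j) + y ≤ ν.ord ^ m * (2 * tp j) + ν.ord ^ m := by gcongr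
      _ = ν.ord ^ m * (2 * tp j + 1) := by rw [mul_add, mul_one]
      _ < ν.ord ^ m * (2 * tp j + 2) := by
          refine mul_lt_mul_of_pos_left ?_ hν0
          refine (add_lt_add_iff_left _).2 ?_
          exact one_lt_two
      _ ≤ ν.ord ^ m * (2 * tp j') := by gcongr
  have hxκ : a + ν.ord ^ m * (2 * tp j') < κ.ord := (hxtop j').trans ha
  have h1 : γ < yy j' := (mono_decG hG hq'r hγ hj2).1 (hpt _ _ hxx hxκ)
  have h2 : yy j ≤ γ := by
    rcases eq_or_ne y 0 with hy0 | hy0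
    · subst hy0
      rw [add_zero] at hγ
      exact ((mono_decG hG hq'r hj1 hγ).2 rfl).le
    · refine ((mono_decG hG hq'r hj1 hγ).1 (hpt _ _ ?_ (hxx.trans hxκ))).le
      exact lt_add_of_pos_right _ (pos_iff_ne_zero.2 hy0)
  have h3 : yy j' ≤ v j := by
    rw [hvv]
    exact (hkv j').2.1
  have hag := RR_agree (inj := inj) (hq'.trans (hqq1 j')) hi₁
  refine ⟨h1.trans_le h3, (hag _ (hki j) _).1 (hkv j).1, (h1.trans_le h3).le, (hkv j).2.2.1,
    fun l hl v' hv' h4 => ?_⟩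
  exact (hkv j).2.2.2 l hl v' ((hag l (hl.le.trans (hki j)) v').2 hv') (h2.trans h4)

end

end Pool.Agent.H98.Polar
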